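import Pool.Agent.Helper76.EC.M_BP
import Pool.Agent.Helper28.EC.M_EX
import Pool.Agent.Helper60.EC.M_S1
import Pool.Agent.Helper2.EC.M_S23
import Pool.Agent.Helper72.EC.M_MAIN
import Pool.Agent.Helper42.EC.M_L2
import Pool.Agent.Helper92.EC.M_CORE
import Pool.Agent.Helper9.EC.M_STAR
import Pool.Agent.Helper15.EC.M_T1
import Pool.Agent.Helper2.EC.M_T2
import Pool.Agent.Helper67.EC.M_T3

/-!
# Project EC: assembly
-/

set_option autoImplicit false

namespace Pool.Agent.Helper70.EC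

theorem pBP : StBP := Pool.Agent.Helper76.EC.hBP
theorem pEX : StEX := Pool.Agent.Helper28.EC.hEX
theorem pS1 : StS1 := Pool.Agent.Helper60.EC.hS1 pBP
theorem pS23 : StS23 := Pool.Agent.Helper2.EC.hS23 pBP pS1
theorem pMAIN : StMAIN := Pool.Agent.Helper72.EC.hMAIN pBP pEX
theorem pL2 : StL2 := Pool.Agent.Helper42.EC.hL2 pBP
theorem pCORE : StCORE := Pool.Agent.Helper92.EC.hCORE pS1 pS23 pMAIN pL2
theorem pSTAR : StSTAR := Pool.Agent.Helper9.EC.hSTAR pBP
theorem pT1 : StT1 := Pool.Agent.Helper15.EC.hT1 pCORE pSTAR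
theorem pT2 : StT2 := Pool.Agent.Helper2.EC.hT2 pBP pT1
theorem pT3 : StT3 := Pool.Agent.Helper67.EC.hT3 pBP

end Pool.Agent.Helper70.EC
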