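import Pool.Agent.Helper1.PFS.Fin

/-!
# Project EC (MP_5c9371_al): product-free subsets of `SL₂(F_p)` and cosets of point stabilisers

THEOREM. `S ⊆ G = SL₂(F_p)` product-free, `n = |G|`, `E` any set of pairs of points of the projective line:
`#{g ∈ S : g x = y for some (x, y) ∈ E}³ ≤ 4000 p |E| n²`. Consequence: at most `100 s^(-1/2) n^(5/6)` elements of `S`
lie in a coset `{h : h x = y}` in which `S` has density at least `s` (`s⁵ p ≥ 40000`); sharp up to constants.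

Method: `f = 1_S` restricted to the union of the cosets is cut into pieces `f_e` (`e ∈ E`), `av f_e` is the average
of `f_e` over the unipotent stabiliser of `x`. The count of solutions for the averages is EXACT in nondegenerate
position (EX, M), the rest is small by mixing in the Borel subgroup (`Helper1.PFS.pB`; S1, S23).
-/

set_option autoImplicit false

namespace Pool.Agent.Helper70.EC

open Finset
open scoped LinearAlgebra.Projectivization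
open Pool.Agent.Helper1.PFS (G uu mm cor inf')

/-- the points of the projective line over `F_p` -/
abbrev Pt (p : ℕ) [Fact p.Prime] : Type := ℙ (ZMod p) (Fin 2 → ZMod p)

section

variable {p : ℕ} [Fact p.Prime]

/-- an element with `kk x • ∞ = x` -/
noncomputable def kk (x : Pt p) : G p :=
  Classical.choose (MulAction.exists_smul_eq (G p) (inf' p) x)

lemma kk_smul (x : Pt p) : kk x • inf' p = x :=
  Classical.choose_spec (MulAction.exists_smul_eq (G p) (inf' p) x)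

/-- parametrisation of the coset `{g : g x = y}` -/
noncomputable def bp (x y : Pt p) (c : (ZMod p)ˣ) (s : ZMod p) : G p :=
  kk y * (mm c * uu s) * (kk x)⁻¹

/-- `∑ f(a) g(b) k(ab)` -/
noncomputable def TT (f g k : G p → ℝ) : ℝ := ∑ a : G p, ∑ b : G p, f a * g b * k (a * b)

/-- square of the `ℓ²` norm -/
noncomputable def nsq (f : G p → ℝ) : ℝ := ∑ g, f g ^ 2

/-- `f` is supported on `{g : g x = y}` -/
def Supp (x y : Pt p) (f : G p → ℝ) : Prop := ∀ g : G p, g • x ≠ y → f g = 0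

open Classical in
/-- average of `f` over the unipotent stabiliser of `x`, on the coset `{g : g x = y}` -/
noncomputable def av (x y : Pt p) (f : G p → ℝ) (g : G p) : ℝ :=
  if g • x = y then (1 / (p : ℝ)) * ∑ s : ZMod p, f (g * (kk x * uu s * (kk x)⁻¹)) else 0

/-- product-free -/
def PF (S : Set (G p)) : Prop := ∀ x ∈ S, ∀ y ∈ S, x * y ∉ S

end

/-- BP. Parametrisation of cosets of point stabilisers.
PROOF. `g • x = y` iff `(kk y)⁻¹ * g * kk x` fixes `∞` (`kk_smul`), iff its entry `1 0` vanishes (`smul_inf_zero`,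
`smul_inf_ne` of `Helper1/PFS/Fin.lean`; `pt τ ≠ inf'`), iff it is `mm c * uu s` with `c` = entry `0 0`,
`s = c⁻¹ *` entry `0 1` (`G_ext`, `det_eq` of `Helper1/PFS/C.lean`); (2) compare entries; (3)
`(mm c * uu s)⁻¹ = uu (-s) * mm c⁻¹ = mm c⁻¹ * uu (-(c² s))` (entries, or `mm_uu`); (4) `uu_add`; (5) `Finset.sum` over
the image of the injective map `(c, s) ↦ bp x y c s`, which is `{g | g • x = y}`; (6) if `g = bp x y c s` and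
`g' = bp x y c s' = g * (kk x * uu (s' - s) * (kk x)⁻¹)` both send `x'` to `y'`, then `uu (s' - s)` fixes the point
`(kk x)⁻¹ • x' ≠ ∞`, which is `pt τ`, and `uu t • pt τ = pt (τ + t)`, so `s' = s` (`pt_inj`); (7) if `x = x'`,
`y ≠ y'` or `x ≠ x'`, `y = y'` there is no `g` with `g • x = y`, `g • x' = y'` (clear). -/
def StBP : Prop := ∀ (p : ℕ) [Fact p.Prime] (x y : Pt p),
  (∀ g : G p, g • x = y ↔ ∃ c s, g = bp x y c s) ∧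
  (∀ c s c' s', bp x y c s = bp x y c' s' → c = c' ∧ s = s') ∧
  (∀ c s, (bp x y c s)⁻¹ = bp y x c⁻¹ (-((c : ZMod p) ^ 2 * s))) ∧
  (∀ c s s', bp x y c s * (kk x * uu s' * (kk x)⁻¹) = bp x y c (s + s')) ∧
  (∀ f : G p → ℝ, Supp x y f → ∑ g, f g = ∑ c, ∑ s, f (bp x y c s)) ∧
  (∀ x' y' : Pt p, x ≠ x' → y ≠ y' → ∀ c s s',
    bp x y c s • x' = y' → bp x y c s' • x' = y' → s = s')

/-- EX. Exact solvability in nondegenerate position.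
PROOF. Let `v_x = kk x • ![1, 0]` (a vector spanning the line `x`), `det(v_x, v_y) ≠ 0` for `x ≠ y` (`v_x`, `v_y` span
different lines). `g • v_x = c v_y` iff `g = bp x y c s` for some `s` (`(kk y)⁻¹ g kk x` sends `![1,0]` to `![c,0]`). There
is a vector `v` with `det(c₂ v_{y₂}, v) = det(v_{x₂}, v_{x₃})` and `det(v_{x₁}, v) = c₁ c₃ det(v_{y₁}, v_{y₃})`
(two linear equations, independent as `x₁ ≠ y₂`). Since `det(v_{x₂}, v_{x₃}) ≠ 0` there is `h ∈ SL₂` with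
`h v_{x₂} = c₂ v_{y₂}`, `h v_{x₃} = v` (matrix with columns `a', b'` times inverse of the matrix with columns `a, b`,
`det(a', b') = det(a, b) ≠ 0`). Since `det(v_{x₁}, v) ≠ 0` there is `g ∈ SL₂` with `g v_{x₁} = c₁ v_{y₁}`,
`g v = c₃ v_{y₃}`. Then `g h v_{x₃} = c₃ v_{y₃}`. -/
def StEX : Prop := ∀ (p : ℕ) [Fact p.Prime] (x₁ y₁ x₂ y₂ x₃ y₃ : Pt p), x₁ ≠ y₂ → x₂ ≠ x₃ → y₁ ≠ y₃ →
  ∀ c₁ c₂ c₃ : (ZMod p)ˣ, ∃ s₁ s₂ s₃ : ZMod p,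
    bp x₁ y₁ c₁ s₁ * bp x₂ y₂ c₂ s₂ = bp x₃ y₃ c₃ s₃

/-- S1. Mixing in the Borel subgroup, first slot.
PROOF. Let `Φ(β) = ∑ z, a(z) b(β z)`, `F(z) = a(kk x * z)`, `F'(z) = b(kk y * z)`; substituting `z → kk x * z`,
`Φ(bp x y c s) = cor F F' c s`. `h = f - av f` is supported on the coset (`Supp`), so by BP (5)
`TT h a b = ∑_{c,s} h(bp x y c s) cor F F' c s`; by BP (4) `av f (bp x y c s) = (1/p) ∑_{s'} f(bp x y c s')`, so
`∑_s h(bp x y c s) = 0` and `TT h a b = ∑_{c,s} f(bp x y c s) (cor c s - (1/p) ∑_{s'} cor c s')` (move the averaging to the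
other side: `∑_s (av f) cor = ∑_s f (avg cor)`). Cauchy-Schwarz (`Finset.sum_mul_sq_le_sq_mul_sq` over pairs) and `pB`
(`Pool.Agent.Helper1.PFS.pB : StB`): `(TT h a b)² ≤ nsq f * (2 p ‖F‖² ‖F'‖²)`, `‖F‖² = nsq a`, `‖F'‖² = nsq b`. -/
def StS1 : Prop := ∀ (p : ℕ) [Fact p.Prime] (x y : Pt p) (f a b : G p → ℝ), Supp x y f →
  TT (fun g => f g - av x y f g) a b ^ 2 ≤ 2 * p * nsq f * nsq a * nsq b

/-- S23. The other two slots.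
PROOF. For `f̌(g) = f(g⁻¹)`: `TT u v w = TT v̌ ǔ w̌` (`(ab)⁻¹ = b⁻¹ a⁻¹`) and `TT u v w = TT w v̌ u` (substitute
`a = z b⁻¹`). `nsq f̌ = nsq f`. If `f` is supported on `(x, y)` then `f̌` is supported on `(y, x)` and
`(av x y f)ˇ = av y x f̌` (BP (3): inversion maps the line `{bp x y c s : s}` onto `{bp y x c⁻¹ s : s}`; both sides are the
mean value of `f` on this line, and `0` off the coset). Slot 2: `TT a (f - av f) b = TT (f̌ - av f̌) ǎ b̌`. Slot 3: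
`TT a b (f - av f) = TT (f - av f) b̌ a`. Apply S1. -/
def StS23 : Prop := ∀ (p : ℕ) [Fact p.Prime] (x y : Pt p) (f a b : G p → ℝ), Supp x y f →
  TT a (fun g => f g - av x y f g) b ^ 2 ≤ 2 * p * nsq f * nsq a * nsq b ∧
  TT a b (fun g => f g - av x y f g) ^ 2 ≤ 2 * p * nsq f * nsq a * nsq b

/-- MAIN. Lower bound for the number of solutions, averaged functions.
PROOF. `av` is nonnegative. Expanding, `TT F F F = ∑_{e₁,e₂,e₃} TT (av f_{e₁}) (av f_{e₂}) (av f_{e₃})`, all terms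
`≥ 0`. For a triple with `x₁ ≠ y₂`, `x₂ ≠ x₃`, `y₁ ≠ y₃` choose by EX for every `(c₁, c₂, c₃)` the pair
`(bp x₁ y₁ c₁ s₁, bp x₂ y₂ c₂ s₂)`; by BP (2) different `(c₁, c₂, c₃)` give different pairs (`c₃` is determined by the
product), and with `φ_e(c) = (1/p) ∑_s f_e(bp x y c s)` the value of the summand there is `φ₁(c₁) φ₂(c₂) φ₃(c₃)` (BP (4)).
So the term is at least `∑_{c₁,c₂,c₃} φ₁ φ₂ φ₃ = (w₁/p)(w₂/p)(w₃/p)` (BP (5)). -/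
def StMAIN : Prop := ∀ (p : ℕ) [Fact p.Prime] (E : Finset (Pt p × Pt p))
  (f : Pt p × Pt p → G p → ℝ), (∀ e ∈ E, Supp e.1 e.2 (f e)) → (∀ e ∈ E, ∀ g, 0 ≤ f e g) →
  (open Classical in ∑ e₁ ∈ E, ∑ e₂ ∈ E, ∑ e₃ ∈ E,
    (if e₁.1 ≠ e₂.2 ∧ e₂.1 ≠ e₃.1 ∧ e₁.2 ≠ e₃.2 then
      (∑ g, f e₁ g) * (∑ g, f e₂ g) * (∑ g, f e₃ g) else 0)) ≤
  (p : ℝ) ^ 3 * TT (fun g => ∑ e ∈ E, av e.1 e.2 (f e) g) (fun g => ∑ e ∈ E, av e.1 e.2 (f e) g)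
    (fun g => ∑ e ∈ E, av e.1 e.2 (f e) g)

/-- L2. The `ℓ²` norm of the sum of the averages.
PROOF. Let `w_e = ∑ f_e`. Expand the square. `e = e'`: `∑_g (av f_e)² ≤ ∑_g av f_e = w_e` (`0 ≤ av f_e ≤ 1`, and BP (4), (5)).
`e ≠ e'`: if `x = x'` or `y = y'` the product vanishes (`g • x = g • x'` implies `x = x'`). Otherwise
`∑_g av f_e av f_{e'} ≤ ∑_{g : g x = y, g x' = y'} av f_e(g)`; `av f_e` has on the line `{bp x y c s : s}` the constant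
value `φ_e(c)`, and the line contains at most one `g` with `g x' = y'` (BP (6)): at most `∑_c φ_e(c) = w_e / p`. Sum over
`e'`: at most `|E| w_e / p`. -/
def StL2 : Prop := ∀ (p : ℕ) [Fact p.Prime] (E : Finset (Pt p × Pt p))
  (f : Pt p × Pt p → G p → ℝ), (∀ e ∈ E, Supp e.1 e.2 (f e)) → (∀ e ∈ E, ∀ g, 0 ≤ f e g) →
  (∀ e ∈ E, ∀ g, f e g ≤ 1) →
  nsq (fun g => ∑ e ∈ E, av e.1 e.2 (f e) g) ≤ (1 + (E.card : ℝ) / p) * ∑ e ∈ E, ∑ g, f e g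

/-- CORE. PROOF. `F = ∑ f_e`, `F̄ = ∑ av f_e`, `D_e = f_e - av f_e`, `w_e = ∑ f_e`, `W = ∑ w_e`. `TT` is trilinear:
`0 = TT F F F = TT F̄ F̄ F̄ + ∑_e TT D_e F F + ∑_e TT F̄ D_e F + ∑_e TT F̄ F̄ D_e`. `nsq f_e ≤ w_e` (values in `[0,1]`),
`nsq F ≤ W` (values in `[0,1]`), `nsq F̄ ≤ 2 W` (L2, `|E| ≤ p`). By S1, S23 the three sums are at most
`∑_e √(2 p w_e) · W`, `∑_e √(2 p w_e) √2 W`, `∑_e √(2 p w_e) 2 W` in absolute value, and `∑_e √w_e ≤ √(|E| W)`. So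
`TT F̄ F̄ F̄ ≤ (3 + √2) √(2 p |E| W) W`. By MAIN `p³ TT F̄ F̄ F̄ ≥ W³ - (degenerate triples)`, and the degenerate triples
have total weight at most `∑_{x₁ = y₂} + ∑_{x₂ = x₃} + ∑_{y₁ = y₃} ≤ 3 (W/6) W²`. So `W³/2 ≤ 4.5 p³ √(2 p |E| W) W`,
`W^(3/2) ≤ 9 p³ √(2 p |E|)`, `W³ ≤ 162 p⁷ |E|`. (`W = 0` is clear.) -/
def StCORE : Prop := ∀ (p : ℕ) [Fact p.Prime] (E : Finset (Pt p × Pt p))
  (f : Pt p × Pt p → G p → ℝ), (∀ e ∈ E, Supp e.1 e.2 (f e)) → (∀ e ∈ E, ∀ g, 0 ≤ f e g) →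
  E.card ≤ p → (∀ g, ∑ e ∈ E, f e g ≤ 1) →
  TT (fun g => ∑ e ∈ E, f e g) (fun g => ∑ e ∈ E, f e g) (fun g => ∑ e ∈ E, f e g) = 0 →
  (open Classical in ∀ v : Pt p, ∑ e ∈ E, (if e.1 = v then ∑ g, f e g else 0) ≤ (∑ e ∈ E, ∑ g, f e g) / 6) →
  (open Classical in ∀ v : Pt p, ∑ e ∈ E, (if e.2 = v then ∑ g, f e g else 0) ≤ (∑ e ∈ E, ∑ g, f e g) / 6) →
  (∑ e ∈ E, ∑ g, f e g) ^ 3 ≤ 162 * (p : ℝ) ^ 7 * E.card

/-- STAR. Consequences of FewImages.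
PROOF. `final` (`Helper1/PFS/Fin.lean`) for `Θ \ {v}`: `a³ ≤ (4p-2) |Θ| n²`, `a = #{g ∈ S : g v ∈ Θ \ {v}}`; if `v ∈ Θ` the
remaining elements lie in the stabiliser of `v` (`p(p-1)` elements, by BP), `b ≤ p(p-1)`, `b³ ≤ n²`;
`(a+b)³ ≤ 4(a³+b³) ≤ (16 p + 4) |Θ| n² ≤ 18 p |Θ| n²`. Second statement: `S⁻¹` is product-free. -/
def StSTAR : Prop := ∀ (p : ℕ) [Fact p.Prime] (S : Set (G p)), PF S → ∀ (v : Pt p) (Θ : Set (Pt p)),
  {g | g ∈ S ∧ g • v ∈ Θ}.ncard ^ 3 ≤ 18 * p * Θ.ncard * (p * (p ^ 2 - 1)) ^ 2 ∧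
  {g | g ∈ S ∧ g⁻¹ • v ∈ Θ}.ncard ^ 3 ≤ 18 * p * Θ.ncard * (p * (p ^ 2 - 1)) ^ 2

/-- T1. PROOF. `N` = the left side's cardinality, `n = p(p²-1)`. If `|E| ≥ p + 1` use STAR for any `v` and `Θ = univ`
(`p + 1` points): `N³ ≤ |S|³ ≤ 18 p (p+1) n² ≤ 18 p |E| n²`. If `|E| ≤ p`: `F(g) = #{e ∈ E : g e.1 = e.2}`,
`f_e(g) = 1/F(g)` if `g ∈ S`, `g e.1 = e.2`, otherwise `0`. Then `∑_e f_e` is the indicator function of
`{g ∈ S : F(g) ≥ 1}`, `∑_e ∑_g f_e = N`, `TT = 0` because `S` is product-free. If the two maximum conditions of CORE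
hold, `N³ ≤ 162 p⁷ |E| ≤ 288 p |E| n²` (`p² - 1 ≥ (3/4) p²`). Otherwise, e.g. for some `v`,
`N/6 < ∑_{e.1 = v} ∑_g f_e(g) ≤ #{g ∈ S : g v ∈ Θ}`, `Θ = {y : (v, y) ∈ E}`, `|Θ| ≤ |E|`, and STAR gives
`N³ ≤ 216 · 18 p |E| n² = 3888 p |E| n²`; for `e.2 = v` the second part of STAR with `Θ = {x : (x, v) ∈ E}`. -/
def StT1 : Prop := ∀ (p : ℕ) [Fact p.Prime] (S : Set (G p)), PF S → ∀ E : Set (Pt p × Pt p),
  {g | g ∈ S ∧ ∃ e ∈ E, g • e.1 = e.2}.ncard ^ 3 ≤ 4000 * p * E.ncard * (p * (p ^ 2 - 1)) ^ 2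

/-- T2. PROOF. `n = p(p²-1)`, `R` = set of the pairs `e = (x, y)` with `#{h ∈ S : h x = y} ≥ s p (p-1)`, `K = |R|`. CLAIM:
`K ≤ 180 (p/s³)^(1/2)`. Otherwise choose `E ⊆ R` with `|E| = K₀ = ⌈180 (p/s³)^(1/2)⌉` elements; `K₀ - 1 ≤ s p` because
`32400 ≤ s⁵ p`. Two different cosets meet in at most `p - 1` elements (BP (6)), so `N = #{g ∈ S : g x = y` for some
`(x,y) ∈ E}` is at least `K₀ s p (p-1) - (K₀ (K₀-1)/2)(p-1) ≥ K₀ s p (p-1)/2`. T1: `(K₀ s p (p-1)/2)³ ≤ 4000 p K₀ n²`,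
`K₀² s³ ≤ 32000 (p+1)²/(p-1) ≤ 32100 p` (`p ≥ 40000`), against `K₀² s³ ≥ 32400 p`. So T1 for `R`:
`N³ ≤ 4000 p · 180 (p/s³)^(1/2) n² ≤ 721000 s^(-3/2) n^(5/2)` (`p^(3/2) ≤ 1.001 n^(1/2)`), `N ≤ 90 s^(-1/2) n^(5/6)`. -/
def StT2 : Prop := ∀ (p : ℕ) [Fact p.Prime] (S : Set (G p)), PF S → ∀ s : ℝ, 0 < s → s ≤ 1 →
  40000 ≤ s ^ 5 * p →
  (({g | g ∈ S ∧ ∃ x : Pt p, s * (p * (p - 1)) ≤ ({h | h ∈ S ∧ h • x = g • x}.ncard : ℝ)}.ncard : ℕ) : ℝ) ≤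
    100 * s ^ (-(1 / 2) : ℝ) * ((p * (p ^ 2 - 1) : ℕ) : ℝ) ^ (5 / 6 : ℝ)

/-- T3. PROOF. `a = inf' p`, `t = max 1 ⌊√p/2⌋ ≤ p`, `Θ` a set of `t` points different from `a`,
`S = {g : g a ∈ Θ, g τ ∉ Θ for all τ ∈ Θ}`. Product-free: `(g h) a = g (h a)`, `h a ∈ Θ`, so `(g h) a ∉ Θ`. For `τ ∈ Θ`
the elements `g ∉ S` with `g a = τ` satisfy `g τ₁ = τ₂` for some `τ₁, τ₂ ∈ Θ`, `τ₁ ≠ a`, and `τ₂ ≠ τ` (otherwise
`τ₁ = a`): at most `(p-1) t (t-1)` elements by BP (6), at most `p (p-1)/4` (`t = 1`: none; otherwise `t² ≤ p/4`). So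
`#{h ∈ S : h a = τ} ≥ (3/4) p (p-1)` and `|S| ≥ (3/4) t p (p-1) ≥ (3/4)(√p/4)(p²/2) = (3/32) p^(5/2)`, `n ≤ p³`
(`t ≥ √p/4` always). -/
def StT3 : Prop := ∀ (p : ℕ) [Fact p.Prime], ∃ S : Set (G p), PF S ∧
  ((p * (p ^ 2 - 1) : ℕ) : ℝ) ^ (5 / 6 : ℝ) / 20 ≤ S.ncard ∧
  ∀ g ∈ S, ∃ x : Pt p, (3 / 4 : ℝ) * (p * (p - 1)) ≤ ({h | h ∈ S ∧ h • x = g • x}.ncard : ℝ)

end Pool.Agent.Helper70.EC
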